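import Pool.Agent.T9h58.MQ.Fin

/-!
# The McKay–Galois conjecture for elements of order prime to `r`: congruences modulo `r` decide

Notation (`Pool/Agent/N84/MG/Chr.lean`, `Pool/Agent/N84/MG/Main.lean`, `Pool/Agent/N19/RB/DefB.lean`,
`Pool/Agent/Q259/BW/Bij.lean`, `Pool/Agent/T9h58/MQ/Act.lean`, `Pool/Agent/T9h58/MQ/Orb.lean`).

* `HG p G` is Navarro's group `𝓗` for `G`: the automorphisms `τ` of `ℂ` for which some `e ≥ 0` gives
  `τ ξ = ξ ^ (p ^ e)` for all `m`-th roots of unity `ξ`, `m` the `p'`-part of `|G|`.
* `XP p G` is `Irr_{p'}(G)`, `NS S` is the normalizer of the Sylow `p`-subgroup `S`.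
* `EquivBij Γ A A'`: there is a bijection `A → A'` commuting with all `σ ∈ Γ`.
* `Ext p G H`: the group `H` has a normal subgroup isomorphic to `C_d × G^n` for some `d`, `n`, with
  abelian factor group of order prime to `p`.
* `RP r N σ`: the order of `σ` on the `N`-th roots of unity is prime to `r`.
* `nr p r L G` is the number of the characters `χ ∈ Irr_{p'}(G)` which are fixed by all `σ ∈ L` and for
  which `r` does not divide the number of Galois conjugates of `χ`, that is the degree `[ℚ(χ) : ℚ]`.

Proof. Let `a_L(G)` be the number of `L`-fixed characters in `Irr_{p'}(G)`. The Galois group acts on these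
characters, hence `a_L(G) ≡ nr p r L G` modulo `r`; and a character whose number of conjugates is prime to
`r` is fixed by `σ` if it is fixed by some `σ ^ (r ^ i)`. So the congruences for the groups `L ≤ 𝓗` of
`p`-power index give `a_L(G) ≡ a_L(N_G(S))` modulo `r` for all groups `L` of order prime to `r` (on the
`|G|`-th roots of unity) which have `p`-power index in a group containing all elements of `𝓗` of order
prime to `r`.

Let `S_r` be the cyclic group of order `r`. Let `L` have order prime to `r` on the roots of unity of order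
`|G ≀ S_r|`. The characters of `G ≀ S_r` above nonconstant tuples are induced from the base group, and a
fixed one is induced from a fixed tuple, as a rotation by an element of `S_r` in which `L` would have to
act has order `r`. The extensions of `θ ⊗ ⋯ ⊗ θ`, for a fixed `θ`, are permuted by `L` like the elements
of an affine line over `𝔽_r`; `r` of them are fixed if `L` fixes the `r`-th roots of unity, and otherwise
exactly one. Thus `r a_L(G ≀ S_r) + a_L(G) = a_L(G)^r + r e a_L(G)`, where `e ∈ {1, r}` depends only on
`L`. The normalizer of a Sylow subgroup of `G ≀ S_r` is `N_G(S) ≀ S_r`. If `r^k` divides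
`a_L(G) - a_L(N_G(S))` for all groups in the class and all these `L`, then the identity shows that
`r^(k+1)` does; hence these numbers are equal.

To pass from `L` of `p`-power index to all subgroups `Δ` of order prime to `r`, let `P` be the image in
`(ℤ/M)ˣ`, `M = p (p^f - 1)`, of the elements of `𝓗` of order prime to `r`, and `Q` the image of (lifts of)
`Δ`. In `(C_D × G^(P/Q)) ⋊ P`, `D ∣ M`, the `L`-fixed characters above faithful characters of `C_M` are
given by the `Δ`-fixed characters of `G`, for a suitable `L` of `p`-power index.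
-/

set_option autoImplicit false

namespace Pool.Agent.Results.MP_1ae3da_al.CongruenceDecides

open Pool.Agent.N84.MG (XP NS Ext) 
open Pool.Agent.Q259.BW (EquivBij)
open Pool.Agent.N19.RB (HG)
open Pool.Agent.T9h58.MQ (RP nr)

/-- `L` is a subgroup of `𝓗` which contains the automorphisms fixing all `|G|`-th roots of unity, and
`𝓗 / L` is a `p`-group. -/
structure PPowerIndex (p : ℕ) (G : Type) (L : Subgroup (ℂ ≃+* ℂ)) : Prop where
  le : (L : Set (ℂ ≃+* ℂ)) ⊆ HG p G
  fix : ∀ σ : ℂ ≃+* ℂ, (∀ ξ : ℂ, ξ ^ Nat.card G = 1 → σ ξ = ξ) → σ ∈ L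
  pow : ∀ σ ∈ HG p G, ∃ j : ℕ, σ ^ p ^ j ∈ L

/-- **Congruences modulo `r` decide.** Let `p ≠ r` be prime numbers and `X` a class of finite groups which
is closed under passing from `G` to the groups which have a normal subgroup isomorphic to some
`C_d × G^n` with abelian factor group of order prime to `p` (for example all finite groups, or the finite
groups whose nonabelian composition factors lie in a given set).
(1) For all groups `G` in `X` and all Sylow `p`-subgroups `S` of `G` there is a bijection from
`Irr_{p'}(G)` to `Irr_{p'}(N_G(S))` which commutes with all `σ ∈ 𝓗` whose order on the `|G|`-th roots of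
unity is prime to `r`, if and only if for all groups `G` in `X` and all subgroups `L` of `𝓗` of `p`-power
index the numbers of the `L`-fixed characters `χ` in `Irr_{p'}(G)` and in `Irr_{p'}(N_G(S))` with
`r ∤ [ℚ(χ) : ℚ]` are congruent modulo `r`.
(2) If these congruences hold for all groups in `X`, then the McKay–Galois conjecture is true (for the
prime `p` and the full group `𝓗`) for all groups `G` in `X` for which `r` does not divide the order of the
group `𝓗` acting on the `|G|`-th roots of unity. -/
theorem result (p r : ℕ) [Fact p.Prime] [Fact r.Prime] (hpr : p ≠ r)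
    (X : (G : Type) → [Group G] → Prop)
    (hX : ∀ (G H : Type) [Group G] [Group H] [Finite G] [Finite H], X G → Ext p G H → X H) :
    ((∀ (G : Type) [Group G] [Finite G] (S : Sylow p G), X G →
        EquivBij {σ | σ ∈ HG p G ∧ RP r (Nat.card G) σ} (XP p G) (XP p (NS S))) ↔
      ∀ (G : Type) [Group G] [Finite G] (S : Sylow p G), X G →
        ∀ L : Subgroup (ℂ ≃+* ℂ), PPowerIndex p G L →
          nr p r (L : Set (ℂ ≃+* ℂ)) G ≡ nr p r (L : Set (ℂ ≃+* ℂ)) (NS S) [MOD r]) ∧
    ((∀ (G : Type) [Group G] [Finite G] (S : Sylow p G), X G →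
        ∀ L : Subgroup (ℂ ≃+* ℂ), PPowerIndex p G L →
          nr p r (L : Set (ℂ ≃+* ℂ)) G ≡ nr p r (L : Set (ℂ ≃+* ℂ)) (NS S) [MOD r]) →
      ∀ (G : Type) [Group G] [Finite G] (S : Sylow p G), X G →
        (∀ σ ∈ HG p G, RP r (Nat.card G) σ) → EquivBij (HG p G) (XP p G) (XP p (NS S))) := by
  have key : (∀ (G : Type) [Group G] [Finite G] (S : Sylow p G), X G →
        EquivBij {σ | σ ∈ HG p G ∧ RP r (Nat.card G) σ} (XP p G) (XP p (NS S))) ↔
      ∀ (G : Type) [Group G] [Finite G] (S : Sylow p G), X G →
        ∀ L : Subgroup (ℂ ≃+* ℂ), PPowerIndex p G L →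
          nr p r (L : Set (ℂ ≃+* ℂ)) G ≡ nr p r (L : Set (ℂ ≃+* ℂ)) (NS S) [MOD r] := by
    refine (Pool.Agent.T9h58.MQ.main hpr hX).trans ?_
    constructor
    · intro h G _ _ S hG L hL
      exact h G S hG L ⟨hL.le, hL.fix, hL.pow⟩
    · intro h G _ _ S hG L hL
      exact h G S hG L ⟨hL.le, hL.fix, hL.pow⟩
  refine ⟨key, fun h G _ _ S hG h1 => ?_⟩
  have h2 := key.mpr h G S hG
  have e : {σ | σ ∈ HG p G ∧ RP r (Nat.card G) σ} = HG p G := by
    ext σ
    exact ⟨fun h3 => h3.1, fun h3 => ⟨h3, h1 σ h3⟩⟩
  rw [e] at h2
  exact h2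

end Pool.Agent.Results.MP_1ae3da_al.CongruenceDecides
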