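import Pool.Agent.T9h58.MQ.Fin5

/-!
# The McKay–Galois conjecture and the characters with values in `ℚ_p`

Notation (`Pool/Agent/N84/MG/Chr.lean`, `Pool/Agent/N84/MG/Main.lean`, `Pool/Agent/N19/RB/DefB.lean`,
`Pool/Agent/Q259/BW/Bij.lean`, `Pool/Agent/Q259/BW/Cnt.lean`, `Pool/Agent/T9h58/MQ/Rat.lean`,
`Pool/Agent/T9h58/MQ/Orb.lean`).

* `HG p G` is Navarro's group `𝓗` for `G`: the automorphisms `τ` of `ℂ` for which some `e ≥ 0` gives
  `τ ξ = ξ ^ (p ^ e)` for all `m`-th roots of unity `ξ`, `m` the `p'`-part of `|G|`. On the cyclotomic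
  field `ℚ_{|G|}` it acts as the decomposition group of a prime over `p`, so the characters fixed by
  `𝓗` are those with values in `ℚ_p`, and the length of the `𝓗`-orbit of `χ` is `[ℚ_p(χ) : ℚ_p]`.
* `XP p G` is `Irr_{p'}(G)`, `NS S` is the normalizer of the Sylow `p`-subgroup `S`.
* `Fx Γ A` is the set of the characters in `A` fixed by all `σ ∈ Γ`.
* `PrOrb p Γ A` is the set of the characters in `A` whose orbit under `Γ` has length prime to `p`.
* `EquivBij Γ A A'`: there is a bijection `A → A'` commuting with all `σ ∈ Γ`.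
* `Ext p G H`: the group `H` has a normal subgroup isomorphic to `C_d × G^n` for some `d`, `n`, with
  abelian factor group of order prime to `p`.
* `HR p r G` is the set of the elements of `𝓗` whose order on the `|G|`-th roots of unity is prime
  to `r`.
* `nr p r Γ G` is the number of the characters `χ ∈ Irr_{p'}(G)` which are fixed by `Γ` and for
  which `r` does not divide the number of Galois conjugates of `χ`, that is the degree `[ℚ(χ) : ℚ]`.

Proof. Let `Δ ≤ 𝓗` contain all elements of `𝓗` of `p`-power order (on the `|G|`-th roots of unity). Let `f`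
be the `p'`-part of `φ(m)`, `M = p (p^f - 1)`, let `P` be the image of `𝓗` in `(ℤ/M)ˣ`, a `p'`-group, and
`Q` the image of (the lifts of) `Δ`. As the kernel of the action of `𝓗` on the `M`-th roots of unity acts
as a `p`-group on the `|G|`-th roots of unity, an element of `𝓗` with image in `Q` acts on the
characters of `G` as an element of `Δ`. Hence for the groups `W_D(G) = (C_D × G^(P/Q)) ⋊ P`, `D ∣ M`, the
`𝓗`-fixed characters of `W_M(G)` of `p'`-degree above faithful characters of `C_M` correspond to the
`Δ`-fixed characters in `Irr_{p'}(G)` (with the same multiplicity for all groups `G`); the others are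
inflated from `W_D(G)`, `D < M`. The normalizer of a Sylow subgroup of `W_D(G)` is `W_D(N_G(S))`. So equal
numbers of `𝓗`-fixed characters for the groups `W_D(G)` imply equal numbers of `Δ`-fixed characters. The
characters fixed by some such `Δ` are those in `PrOrb`. The same works for the elements of order prime to
`r`, and there congruences modulo `r` suffice by the recursion for wreath products with groups of
order `r` (see `CongruenceDecides`). For (c) the inequalities are applied to the powers
`G^(2^k)`.
-/

set_option autoImplicit false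

namespace Pool.Agent.Results.MP_1ae3da_al.PadicValuedCharacters

open Pool.Agent.N84.MG (XP NS Ext) 
open Pool.Agent.Q259.BW (EquivBij Fx)
open Pool.Agent.N19.RB (HG)
open Pool.Agent.T9h58.MQ (PrOrb HR nr)

/-- **Characters with values in `ℚ_p`.** Let `p` be a prime and `X` a class of finite groups which is
closed under passing from `G` to the groups which have a normal subgroup isomorphic to some `C_d × G^n`
with abelian factor group of order prime to `p` (for example all finite groups).
(1) The following are equivalent: (a) for all `G` in `X` and all Sylow `p`-subgroups `S` of `G` there is an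
`𝓗`-equivariant bijection between the characters `χ` in `Irr_{p'}(G)` and in `Irr_{p'}(N_G(S))` for which
`p` does not divide `[ℚ_p(χ) : ℚ_p]`; (b) for all `G` in `X` the numbers of characters with values in
`ℚ_p` in `Irr_{p'}(G)` and in `Irr_{p'}(N_G(S))` are equal; (c) for all `G` in `X` these numbers are equal
up to a factor `|G|^o(1)`.
(2) Let `r ≠ p` be a prime. For all `G` in `X` there is a bijection as in (a) which commutes with the
elements of `𝓗` whose order on the `|G|`-th roots of unity is prime to `r`, if and only if for all `G` in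
`X` the numbers of characters `χ` with values in `ℚ_p` and `r ∤ [ℚ(χ) : ℚ]` in `Irr_{p'}(G)` and in
`Irr_{p'}(N_G(S))` are congruent modulo `r`. -/
theorem result (p : ℕ) [Fact p.Prime] (X : (G : Type) → [Group G] → Prop)
    (hX : ∀ (G H : Type) [Group G] [Group H] [Finite G] [Finite H], X G → Ext p G H → X H) :
    (((∀ (G : Type) [Group G] [Finite G] (S : Sylow p G), X G →
        EquivBij (HG p G) (PrOrb p (HG p G) (XP p G)) (PrOrb p (HG p G) (XP p (NS S)))) ↔
      ∀ (G : Type) [Group G] [Finite G] (S : Sylow p G), X G →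
        Nat.card (Fx (HG p G) (XP p G)) = Nat.card (Fx (HG p G) (XP p (NS S)))) ∧
    ((∀ (G : Type) [Group G] [Finite G] (S : Sylow p G), X G →
        Nat.card (Fx (HG p G) (XP p G)) = Nat.card (Fx (HG p G) (XP p (NS S)))) ↔
      ∀ ε : ℝ, 0 < ε → ∃ C : ℝ, ∀ (G : Type) [Group G] [Finite G] (S : Sylow p G), X G →
        (Nat.card (Fx (HG p G) (XP p G)) : ℝ) ≤
            C * (Nat.card G : ℝ) ^ ε * Nat.card (Fx (HG p G) (XP p (NS S))) ∧
          (Nat.card (Fx (HG p G) (XP p (NS S))) : ℝ) ≤
            C * (Nat.card G : ℝ) ^ ε * Nat.card (Fx (HG p G) (XP p G)))) ∧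
    ∀ (r : ℕ) [Fact r.Prime], p ≠ r →
      ((∀ (G : Type) [Group G] [Finite G] (S : Sylow p G), X G →
          EquivBij (HR p r G) (PrOrb p (HG p G) (XP p G)) (PrOrb p (HG p G) (XP p (NS S)))) ↔
        ∀ (G : Type) [Group G] [Finite G] (S : Sylow p G), X G →
          nr p r (HG p G) G ≡ nr p r (HG p G) (NS S) [MOD r]) := by
  refine ⟨⟨Pool.Agent.T9h58.MQ.main3 hX, fun h ε hε => ⟨1, fun G _ _ S hG => ?_⟩,
    fun h G _ _ S hG => Pool.Agent.T9h58.MQ.main6 hX h G S hG⟩,
    fun r _ hpr => Pool.Agent.T9h58.MQ.main4 hpr hX⟩
  rw [h G S hG]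
  have h2 : (1 : ℝ) ≤ (Nat.card G : ℝ) ^ ε :=
    Real.one_le_rpow (by exact_mod_cast Nat.card_pos) hε.le
  have h3 : (Nat.card (Fx (HG p G) (XP p (NS S))) : ℝ) ≤ 1 * (Nat.card G : ℝ) ^ ε *
      Nat.card (Fx (HG p G) (XP p (NS S))) := by
    rw [one_mul]
    exact le_mul_of_one_le_left (Nat.cast_nonneg _) h2
  exact ⟨h3, h3⟩

end Pool.Agent.Results.MP_1ae3da_al.PadicValuedCharacters
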