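import Pool.Agent.T9h58.MQ.Lvl5

/-!
# The McKay–Galois conjecture for characters of bounded `p`-rationality level

Notation (`Pool/Agent/N84/MG/Chr.lean`, `Pool/Agent/N84/MG/Main.lean`, `Pool/Agent/N19/RB/DefB.lean`,
`Pool/Agent/Q259/BW/Bij.lean`, `Pool/Agent/Q259/BW/Cnt.lean`, `Pool/Agent/T9h58/MQ/Rat.lean`,
`Pool/Agent/T9h58/MQ/Orb.lean`, `Pool/Agent/T9h58/MQ/Lvl2.lean`, `Pool/Agent/T9h58/MQ/Lvl4.lean`).
Let `m` be the `p'`-part of `|G|`.

* `HG p G` is Navarro's group `𝓗` for `G`: the automorphisms `τ` of `ℂ` for which some `e ≥ 0` gives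
  `τ ξ = ξ ^ (p ^ e)` for all `m`-th roots of unity `ξ`.
* `Lk p k G` is the subgroup `𝓗_k` of the `τ` for which there is such an `e` divisible by `p ^ k`.
* `TA p α G` is the group of the automorphisms of `ℂ` which fix the `p ^ α * m`-th roots of unity.
* `XP p G` is `Irr_{p'}(G)`, `NS S` is the normalizer of the Sylow `p`-subgroup `S`.
* `Fx Γ A` is the set of the characters in `A` fixed by all `σ ∈ Γ`.
* `EquivBij Γ A A'`: there is a bijection `A → A'` commuting with all `σ ∈ Γ`.
* `Ext p G H`: the group `H` has a normal subgroup isomorphic to `C_d × G^n` for some `d`, `n`, with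
  abelian factor group of order prime to `p`.
* `HR p r G` is the set of the elements of `𝓗` whose order on the `|G|`-th roots of unity is prime
  to `r`.
* `nr p r Γ G` is the number of the characters `χ ∈ Irr_{p'}(G)` which are fixed by `Γ` and for
  which `r` does not divide the number of Galois conjugates of `χ`, that is the degree `[ℚ(χ) : ℚ]`.

Proof. By `num_of_bij` and `bij_of_num` an equivariant bijection is the same as equal numbers of `Δ`-fixed
characters for all `Δ` with `TA p α G ≤ Δ ≤ 𝓗`. Given `Δ`, let `f` be the `p'`-part of `φ(m)`,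
`M = p (p^f - 1)` and let `P` be the image of `𝓗` in `(ℤ/M)ˣ`, a `p'`-group. There is a subgroup `L` of
`p`-power index in `𝓗` (for `C_M × G^n ⋊ P`), still with image `P`, for which the elements with image in
`Q = Δ M`-image act on the characters of `G` as `Δ`. As the selection of `L` only uses a complement of a
`p`-group above `Δ`, the group `L` contains all elements of `𝓗` which act on the `|G|`-th roots of unity as
elements of `Δ`, in particular `TA p α` of the larger group, because for `α ≥ 1` these have `p`-power order.
So the numbers of `L`-fixed characters of the groups `W_D(G) = (C_D × G^(P/Q)) ⋊ P`, `D ∣ M`, determine the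
numbers of `Δ`-fixed characters of `G`, and `N_{W_D(G)}(Syl) = W_D(N_G(S))`. For `α = 1` the group `L` has
`p`-power index in `𝓗` and contains `TA p 1`, whose index in the inertia group is `p - 1`; so `L` contains
the inertia group and is one of the `𝓗_k`. For the congruences see `CongruenceDecides`; for (3) pass to the
powers `G^(2^k)`.
-/

set_option autoImplicit false

namespace Pool.Agent.Results.MP_1ae3da_al.RationalityLevel

open Pool.Agent.N84.MG (XP NS Ext) 
open Pool.Agent.Q259.BW (EquivBij Fx)
open Pool.Agent.N19.RB (HG)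
open Pool.Agent.T9h58.MQ (HR nr TA Lk)

/-- `L` is a subgroup of `𝓗` which contains the automorphisms fixing all `|G|`-th roots of unity, and
`𝓗 / L` is a `p`-group. -/
structure PPowerIndex (p : ℕ) (G : Type) (L : Subgroup (ℂ ≃+* ℂ)) : Prop where
  le : (L : Set (ℂ ≃+* ℂ)) ⊆ HG p G
  fix : ∀ σ : ℂ ≃+* ℂ, (∀ ξ : ℂ, ξ ^ Nat.card G = 1 → σ ξ = ξ) → σ ∈ L
  pow : ∀ σ ∈ HG p G, ∃ j : ℕ, σ ^ p ^ j ∈ L

/-- The characters in `Irr_{p'}(H)` with values in `ℚ(ζ_{p ^ α m})`, `m` the `p'`-part of `|G|` (used for
`H = G` and `H = N_G(S)`). For `α = 0` these are the `p`-rational characters in `Irr_{p'}(H)`, for `α = 1`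
the almost `p`-rational ones. -/
def levelSet (p α : ℕ) (G H : Type) [Group H] : Set (H → ℂ) := Fx (TA p α G) (XP p H)

/-- The number of the characters in `Irr_{p'}(H)` which are fixed by `𝓗_k`, that is the number of those
with values in the unramified extension of `ℚ_p` of degree `p ^ k` (used for `H = G` and `H = N_G(S)`). -/
noncomputable def unramifiedNumber (p k : ℕ) (G H : Type) [Group H] : ℕ :=
  Nat.card (Fx (Lk p k G) (XP p H))

/-- **Characters of bounded `p`-rationality level.** Let `p` be a prime and `X` a class of finite groups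
which is closed under passing from `G` to the groups which have a normal subgroup isomorphic to some
`C_d × G^n` with abelian factor group of order prime to `p` (for example all finite groups).
(1) The McKay–Galois conjecture for the almost `p`-rational characters of `p'`-degree holds for all groups
in `X`, if and only if it holds for the `p`-rational characters of `p'`-degree for all groups in `X`.
(2) This is the case if and only if for all `G` in `X` and all `k ≥ 0` the groups `G` and `N_G(S)` have
equally many irreducible characters of `p'`-degree with values in the unramified extension of `ℚ_p` of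
degree `p ^ k`.
(3) For this it is enough that for each fixed `k` these numbers are equal up to a factor `|G|^o(1)`.
(4) Let `r ≠ p` be a prime. There are bijections between the almost `p`-rational characters of `p'`-degree
of `G` and of `N_G(S)` which commute with the elements of `𝓗` of order prime to `r` (on the `|G|`-th roots
of unity) for all `G` in `X`, if and only if for all `G` in `X` and all `k` the numbers of the characters
in (2) with `r ∤ [ℚ(χ) : ℚ]` are congruent modulo `r`.
(5) For all `α ≥ 1` the McKay–Galois conjecture for the characters of `p'`-degree with values in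
`ℚ(ζ_{p ^ α m})`, `m = |G|_{p'}`, holds for all `G` in `X`, if and only if for all `G` in `X` and all
subgroups `L` of `p`-power index of `𝓗` which contain the automorphisms fixing `ζ_{p ^ α m}` the numbers
of the `L`-fixed characters in `Irr_{p'}(G)` and in `Irr_{p'}(N_G(S))` are equal. -/
theorem result (p : ℕ) [Fact p.Prime] (X : (G : Type) → [Group G] → Prop)
    (hX : ∀ (G H : Type) [Group G] [Group H] [Finite G] [Finite H], X G → Ext p G H → X H) :
    ((∀ (G : Type) [Group G] [Finite G] (S : Sylow p G), X G →
        EquivBij (HG p G) (levelSet p 1 G G) (levelSet p 1 G (NS S))) ↔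
      ∀ (G : Type) [Group G] [Finite G] (S : Sylow p G), X G →
        EquivBij (HG p G) (levelSet p 0 G G) (levelSet p 0 G (NS S))) ∧
    ((∀ (G : Type) [Group G] [Finite G] (S : Sylow p G), X G →
        EquivBij (HG p G) (levelSet p 1 G G) (levelSet p 1 G (NS S))) ↔
      ∀ (G : Type) [Group G] [Finite G] (S : Sylow p G), X G → ∀ k : ℕ,
        unramifiedNumber p k G G = unramifiedNumber p k G (NS S)) ∧
    ((∀ (G : Type) [Group G] [Finite G] (S : Sylow p G), X G →
        EquivBij (HG p G) (levelSet p 1 G G) (levelSet p 1 G (NS S))) ↔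
      ∀ (k : ℕ) (ε : ℝ), 0 < ε → ∃ C : ℝ, ∀ (G : Type) [Group G] [Finite G] (S : Sylow p G), X G →
        (unramifiedNumber p k G G : ℝ) ≤ C * (Nat.card G : ℝ) ^ ε * unramifiedNumber p k G (NS S) ∧
          (unramifiedNumber p k G (NS S) : ℝ) ≤
            C * (Nat.card G : ℝ) ^ ε * unramifiedNumber p k G G) ∧
    (∀ (r : ℕ) [Fact r.Prime], p ≠ r →
      ((∀ (G : Type) [Group G] [Finite G] (S : Sylow p G), X G →
        EquivBij (HR p r G) (levelSet p 1 G G) (levelSet p 1 G (NS S))) ↔
      ∀ (G : Type) [Group G] [Finite G] (S : Sylow p G), X G → ∀ k : ℕ,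
        nr p r (Lk p k G) G ≡ nr p r (Lk p k G) (NS S) [MOD r])) ∧
    ∀ α : ℕ, 0 < α →
      ((∀ (G : Type) [Group G] [Finite G] (S : Sylow p G), X G →
        EquivBij (HG p G) (levelSet p α G G) (levelSet p α G (NS S))) ↔
      ∀ (G : Type) [Group G] [Finite G] (S : Sylow p G), X G →
        ∀ L : Subgroup (ℂ ≃+* ℂ), PPowerIndex p G L → TA p α G ⊆ L →
          Nat.card (Fx (L : Set (ℂ ≃+* ℂ)) (XP p G)) =
            Nat.card (Fx (L : Set (ℂ ≃+* ℂ)) (XP p (NS S)))) := by
  refine ⟨Pool.Agent.T9h58.MQ.mainB hX, Pool.Agent.T9h58.MQ.mainA hX,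
    Pool.Agent.T9h58.MQ.mainC hX, fun r _ hpr => Pool.Agent.T9h58.MQ.mainR hpr hX,
    fun α hα => (Pool.Agent.T9h58.MQ.mainZ hα hX).trans ?_⟩
  constructor
  · intro h G _ _ S hG L hL hT
    exact h G S hG L ⟨hL.le, hL.fix, hL.pow⟩ hT
  · intro h G _ _ S hG L hL hT
    exact h G S hG L ⟨hL.le, hL.fix, hL.pow⟩ hT

end Pool.Agent.Results.MP_1ae3da_al.RationalityLevel
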