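import Pool.Agent.T9h58.MQ.Fin7

/-!
# The McKay–Galois conjecture: agreement up to a subpolynomial factor suffices

Notation (`Pool/Agent/N84/MG/Chr.lean`, `Pool/Agent/N84/MG/Main.lean`, `Pool/Agent/N19/RB/DefB.lean`,
`Pool/Agent/Q259/BW/Bij.lean`, `Pool/Agent/Q259/BW/Cnt.lean`).

* `HG p G` is Navarro's group `𝓗` for `G`: the automorphisms `τ` of `ℂ` for which some `e ≥ 0` gives
  `τ ξ = ξ ^ (p ^ e)` for all `m`-th roots of unity `ξ`, `m` the `p'`-part of `|G|`.
* `XP p G` is `Irr_{p'}(G)`, `NS S` is the normalizer of the Sylow `p`-subgroup `S`.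
* `Fx L A` is the set of the characters in `A` fixed by all `σ ∈ L`.
* `EquivBij Γ A A'`: there is a bijection `A → A'` commuting with all `σ ∈ Γ`.
* `Ext p G H`: the group `H` has a normal subgroup isomorphic to `C_d × G^n` for some `d`, `n`, with
  abelian factor group of order prime to `p`.

Proof. The numbers of fixed characters of the groups `G^(2^k)` are the `2^k`-th powers of those of `G`, and
a subgroup `L` of `p`-power index for `G` is lifted to a group with these properties for `G × G` which acts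
in the same way on the characters of `G`. So an inequality up to a factor `c_ε |G|^ε` for all groups in the
class gives `a ≤ c_ε^(1/2^k) |G|^ε b` for all `k` and all `ε > 0`, hence `a ≤ b`. Equality of the numbers of
`L`-fixed characters for all groups in the class and all `L` of `p`-power index gives the same for all
subgroups of `𝓗`, by the method of the file `PowerOrbits`.
-/

set_option autoImplicit false

namespace Pool.Agent.Results.MP_1ae3da_al.SubpolynomialFactor

open Pool.Agent.N84.MG (XP NS Ext) 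
open Pool.Agent.Q259.BW (EquivBij Fx)
open Pool.Agent.N19.RB (HG)

/-- `L` is a subgroup of `𝓗` which contains the automorphisms fixing all `|G|`-th roots of unity, and
`𝓗 / L` is a `p`-group. -/
structure PPowerIndex (p : ℕ) (G : Type) (L : Subgroup (ℂ ≃+* ℂ)) : Prop where
  le : (L : Set (ℂ ≃+* ℂ)) ⊆ HG p G
  fix : ∀ σ : ℂ ≃+* ℂ, (∀ ξ : ℂ, ξ ^ Nat.card G = 1 → σ ξ = ξ) → σ ∈ L
  pow : ∀ σ ∈ HG p G, ∃ j : ℕ, σ ^ p ^ j ∈ L

/-- The number of the `L`-fixed irreducible characters of `G` of degree prime to `p`. -/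
noncomputable def fixedNumber (p : ℕ) (L : Subgroup (ℂ ≃+* ℂ)) (G : Type) [Group G] : ℕ :=
  Nat.card (Fx (L : Set (ℂ ≃+* ℂ)) (XP p G))

/-- **Agreement up to a subpolynomial factor suffices.** Let `p` be a prime and `X` a class of finite
groups which is closed under passing from `G` to the groups which have a normal subgroup isomorphic to some
`C_d × G^n` with abelian factor group of order prime to `p` (for example all finite groups). For a subgroup
`L ≤ 𝓗` of `p`-power index let `a_L(G)` be the number of the `L`-fixed characters in `Irr_{p'}(G)`.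
(1) The McKay–Galois conjecture (for the prime `p`) holds for all groups in `X`, if and only if for every
`ε > 0` there is a constant `C` such that `a_L(G) ≤ C |G|^ε a_L(N_G(S))` and
`a_L(N_G(S)) ≤ C |G|^ε a_L(G)` for all `G` in `X`, all Sylow `p`-subgroups `S` of `G` and all `L`.
(2) If for every `ε > 0` there is a constant `C` such that `a_L(G) ≤ C |G|^ε a_L(N_G(S))` for all `G` in `X`,
`S` and `L`, then `a_L(G) ≤ a_L(N_G(S))` for all `G` in `X`, `S` and `L`. The same holds with `G` and
`N_G(S)` interchanged. -/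
theorem result (p : ℕ) [Fact p.Prime] (X : (G : Type) → [Group G] → Prop)
    (hX : ∀ (G H : Type) [Group G] [Group H] [Finite G] [Finite H], X G → Ext p G H → X H) :
    ((∀ (G : Type) [Group G] [Finite G] (S : Sylow p G), X G →
        EquivBij (HG p G) (XP p G) (XP p (NS S))) ↔
      ∀ ε : ℝ, 0 < ε → ∃ C : ℝ, ∀ (G : Type) [Group G] [Finite G] (S : Sylow p G), X G →
        ∀ L : Subgroup (ℂ ≃+* ℂ), PPowerIndex p G L →
          (fixedNumber p L G : ℝ) ≤ C * (Nat.card G : ℝ) ^ ε * fixedNumber p L (NS S) ∧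
            (fixedNumber p L (NS S) : ℝ) ≤ C * (Nat.card G : ℝ) ^ ε * fixedNumber p L G) ∧
    ((∀ ε : ℝ, 0 < ε → ∃ C : ℝ, ∀ (G : Type) [Group G] [Finite G] (S : Sylow p G), X G →
        ∀ L : Subgroup (ℂ ≃+* ℂ), PPowerIndex p G L →
          (fixedNumber p L G : ℝ) ≤ C * (Nat.card G : ℝ) ^ ε * fixedNumber p L (NS S)) →
      ∀ (G : Type) [Group G] [Finite G] (S : Sylow p G), X G →
        ∀ L : Subgroup (ℂ ≃+* ℂ), PPowerIndex p G L →
          fixedNumber p L G ≤ fixedNumber p L (NS S)) ∧
    ((∀ ε : ℝ, 0 < ε → ∃ C : ℝ, ∀ (G : Type) [Group G] [Finite G] (S : Sylow p G), X G →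
        ∀ L : Subgroup (ℂ ≃+* ℂ), PPowerIndex p G L →
          (fixedNumber p L (NS S) : ℝ) ≤ C * (Nat.card G : ℝ) ^ ε * fixedNumber p L G) →
      ∀ (G : Type) [Group G] [Finite G] (S : Sylow p G), X G →
        ∀ L : Subgroup (ℂ ≃+* ℂ), PPowerIndex p G L →
          fixedNumber p L (NS S) ≤ fixedNumber p L G) := by
  refine ⟨(Pool.Agent.T9h58.MQ.main5 hX).trans ?_, fun h G _ _ S hG L hL => ?_,
    fun h G _ _ S hG L hL => ?_⟩
  · refine forall₂_congr fun ε _ => exists_congr fun C => ?_
    constructor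
    · intro h G _ _ S hG L hL
      exact h G S hG L ⟨hL.le, hL.fix, hL.pow⟩
    · intro h G _ _ S hG L hL
      exact h G S hG L ⟨hL.le, hL.fix, hL.pow⟩
  · refine (Pool.Agent.T9h58.MQ.main7 hX).1 (fun ε hε => ?_) G S hG L ⟨hL.le, hL.fix, hL.pow⟩
    obtain ⟨C, hC⟩ := h ε hε
    exact ⟨C, fun G _ _ S hG L hL => hC G S hG L ⟨hL.le, hL.fix, hL.pow⟩⟩
  · refine (Pool.Agent.T9h58.MQ.main7 hX).2 (fun ε hε => ?_) G S hG L ⟨hL.le, hL.fix, hL.pow⟩
    obtain ⟨C, hC⟩ := h ε hε
    exact ⟨C, fun G _ _ S hG L hL => hC G S hG L ⟨hL.le, hL.fix, hL.pow⟩⟩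

end Pool.Agent.Results.MP_1ae3da_al.SubpolynomialFactor
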